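import Mathlib
import Pool.Agent.Lib.P81a4d5h.Multi

set_option autoImplicit false

/-!
# MP_81a4d5_co: degree and leading coefficient of the reduced Solomon-Terao polynomial

For every field `K` (in every universe), every `ℓ` and every arrangement `A` of hyperplanes of
`K ^ ℓ` with multiplicities `m`, the series `Ψ(A, m; x, -1)` is a monic polynomial with integer
coefficients, of degree `∑_{H ∈ A} m H`.  For `m = 1` this is the posed question: `Ψ(A; x, -1)` is a
polynomial of degree `|A|` with leading coefficient `1`.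
-/

open MvPolynomial

namespace Pool.Agent.Results.MP_81a4d5_co.Multiarrangement

universe u

section Definitions

variable {K : Type u} [Field K] {ℓ : ℕ}

/-- The linear form `∑ aᵢ xᵢ` in `S = K[x₁, …, x_ℓ]`. -/
noncomputable def form (a : Fin ℓ → K) : MvPolynomial (Fin ℓ) K := ∑ i, C (a i) * X i

/-- `θ : S ^ p → S`, alternating and `K`-multilinear, is a derivation in each argument. -/
def IsDer {p : ℕ} (θ : MvPolynomial (Fin ℓ) K [⋀^Fin p]→ₗ[K] MvPolynomial (Fin ℓ) K) : Prop :=
  ∀ (f : Fin p → MvPolynomial (Fin ℓ) K) (j : Fin p) (g h : MvPolynomial (Fin ℓ) K),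
    θ (Function.update f j (g * h)) = g * θ (Function.update f j h) + h * θ (Function.update f j g)

/-- The logarithmic derivation module `D^p(A, m)` of order `p`, as an `S`-module: the alternating
`K`-multilinear maps `θ : S ^ p → S` that are derivations in each argument and satisfy
`θ(α_H, f₂, …, f_p) ∈ S α_H ^ (m H)` for all `H ∈ A` (with `α_H` any linear form whose kernel is `H`)
and all `f₂, …, f_p`.  For `m = 1` it is `D^p(A)`; for `p = 0` the condition is empty. -/
def LogDer (A : Finset (Submodule K (Fin ℓ → K))) (m : Submodule K (Fin ℓ → K) → ℕ) (p : ℕ) :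
    Submodule (MvPolynomial (Fin ℓ) K)
      (MvPolynomial (Fin ℓ) K [⋀^Fin p]→ₗ[K] MvPolynomial (Fin ℓ) K) where
  carrier := {θ | IsDer θ ∧ ∀ H ∈ A, ∀ a : Fin ℓ → K, (∀ v, v ∈ H ↔ ∑ i, a i * v i = 0) →
    ∀ (f : Fin p → MvPolynomial (Fin ℓ) K) (hp : 0 < p), f ⟨0, hp⟩ = form a →
      form a ^ m H ∣ θ f}
  add_mem' := by
    rintro θ η ⟨h1, h2⟩ ⟨h3, h4⟩
    refine ⟨fun f j g h => ?_, fun H hH a ha f hp hf => ?_⟩
    · simp only [AlternatingMap.add_apply, h1 f j g h, h3 f j g h]
      ring
    · rw [AlternatingMap.add_apply]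
      exact dvd_add (h2 H hH a ha f hp hf) (h4 H hH a ha f hp hf)
  zero_mem' := by
    refine ⟨fun f j g h => ?_, fun H hH a ha f hp hf => ?_⟩
    · simp
    · simp
  smul_mem' := by
    rintro r θ ⟨h1, h2⟩
    refine ⟨fun f j g h => ?_, fun H hH a ha f hp hf => ?_⟩
    · simp only [AlternatingMap.smul_apply, h1 f j g h, smul_eq_mul]
      ring
    · rw [AlternatingMap.smul_apply, smul_eq_mul]
      exact (h2 H hH a ha f hp hf).mul_left r

/-- The degree `k` part of `D^p(A, m)`: the coefficients `θ(x_{i₁}, …, x_{i_p})` of `θ` in the basis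
`∂_{i₁} ∧ ⋯ ∧ ∂_{i_p}` are homogeneous of degree `k`. -/
def LogDerDeg (A : Finset (Submodule K (Fin ℓ → K))) (m : Submodule K (Fin ℓ → K) → ℕ)
    (p k : ℕ) :
    Submodule K (MvPolynomial (Fin ℓ) K [⋀^Fin p]→ₗ[K] MvPolynomial (Fin ℓ) K) where
  carrier := {θ | θ ∈ LogDer A m p ∧
    ∀ i : Fin p → Fin ℓ, (θ (fun s => X (i s))).IsHomogeneous k}
  add_mem' := by
    rintro θ η ⟨h1, h2⟩ ⟨h3, h4⟩
    exact ⟨add_mem h1 h3, fun i => (h2 i).add (h4 i)⟩
  zero_mem' := ⟨zero_mem _, fun i => isHomogeneous_zero _ _ _⟩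
  smul_mem' := by
    rintro r θ ⟨h1, h2⟩
    refine ⟨?_, fun i => ?_⟩
    · have h3 : r • θ = (C r : MvPolynomial (Fin ℓ) K) • θ := by
        ext f
        simp only [AlternatingMap.smul_apply, smul_eq_mul, smul_eq_C_mul]
      rw [h3]
      exact Submodule.smul_mem _ _ h1
    · rw [AlternatingMap.smul_apply]
      exact (homogeneousSubmodule (Fin ℓ) K k).smul_mem r (h2 i)

/-- The Hilbert series `Hilb(D^p(A, m); x)`. -/
noncomputable def hilb (A : Finset (Submodule K (Fin ℓ → K))) (m : Submodule K (Fin ℓ → K) → ℕ)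
    (p : ℕ) : PowerSeries ℤ :=
  PowerSeries.mk fun k => (Module.finrank K (LogDerDeg A m p k) : ℤ)

/-- `Ψ(A, m; x, t) = ∑_{p = 0}^{ℓ} Hilb(D^p(A, m); x) (t (x - 1) - 1) ^ p`, a polynomial in `t` whose
coefficients are power series in `x`. -/
noncomputable def Psi (A : Finset (Submodule K (Fin ℓ → K))) (m : Submodule K (Fin ℓ → K) → ℕ) :
    Polynomial (PowerSeries ℤ) :=
  ∑ p ∈ Finset.range (ℓ + 1), Polynomial.C (hilb A m p) *
    (Polynomial.X * (Polynomial.C PowerSeries.X - 1) - 1) ^ p

end Definitions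

open Pool.Agent.Lib.P81a4d5h

variable {K : Type u} [Field K] {ℓ : ℕ}

private lemma form_eq (a : Fin ℓ → K) : form a = lin a := rfl

private lemma ext_of_X {p : ℕ}
    (θ : MvPolynomial (Fin ℓ) K [⋀^Fin p]→ₗ[K] MvPolynomial (Fin ℓ) K) (h : IsDer θ)
    (h0 : ∀ J : Fin p → Fin ℓ, θ (fun s => X (J s)) = 0) : θ = 0 := by
  have key : ∀ n, n ≤ p → ∀ f : Fin p → MvPolynomial (Fin ℓ) K,
      (∀ s : Fin p, n ≤ s.val → ∃ i, f s = X i) → θ f = 0 := by
    intro n
    induction n with
    | zero =>
      intro _ f hf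
      choose J hJ using fun s => hf s (Nat.zero_le _)
      have h1 : f = fun s => X (J s) := funext hJ
      rw [h1]
      exact h0 J
    | succ n ih =>
      intro hn f hf
      let j : Fin p := ⟨n, hn⟩
      let D : Derivation K (MvPolynomial (Fin ℓ) K) (MvPolynomial (Fin ℓ) K) :=
        Derivation.mk' { toFun := fun g => θ (Function.update f j g)
                         map_add' := fun g g' => θ.map_update_add f j g g'
                         map_smul' := fun r g => θ.map_update_smul f j r g }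
          (fun g g' => by
            show θ _ = _
            rw [h f j g g']
            rfl)
      have hD : D = 0 := by
        apply MvPolynomial.derivation_ext
        intro i
        show θ (Function.update f j (X i)) = 0
        apply ih (by omega)
        intro s hs
        by_cases hsj : s = j
        · subst hsj
          exact ⟨i, by rw [Function.update_self]⟩
        · rw [Function.update_of_ne hsj]
          apply hf s
          have : s.val ≠ n := fun hcon => hsj (Fin.ext hcon)
          omega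
      have h1 : D (f j) = 0 := by rw [hD]; rfl
      have h2 : D (f j) = θ (Function.update f j (f j)) := rfl
      rw [h2, Function.update_eq_self] at h1
      exact h1
  ext1 f
  exact key p le_rfl f (fun s hs => absurd s.2 (by omega))

private noncomputable def grad :
    MvPolynomial (Fin ℓ) K →ₗ[K] (Fin ℓ → MvPolynomial (Fin ℓ) K) :=
  LinearMap.pi fun i => (pderiv i).toLinearMap

private lemma grad_apply (f : MvPolynomial (Fin ℓ) K) (i : Fin ℓ) : grad f i = pderiv i f := rfl

private lemma grad_mul (f g : MvPolynomial (Fin ℓ) K) :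
    grad (f * g) = f • grad g + g • grad f := by
  ext1 i
  simp only [grad_apply, Pi.add_apply, Pi.smul_apply, Derivation.leibniz]

private lemma grad_X (i : Fin ℓ) :
    grad (X i : MvPolynomial (Fin ℓ) K) = Pi.single i 1 := by
  ext1 j
  rw [grad_apply, pderiv_X]
  simp only [Pi.single_apply, eq_comm]

private lemma grad_lin (a : Fin ℓ → K) : grad (lin a) = fun i => C (a i) := by
  ext1 i
  rw [grad_apply, lin, map_sum, Finset.sum_eq_single i]
  · rw [pderiv_C_mul, pderiv_X_self, mul_one]
  · intro b _ hb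
    rw [pderiv_C_mul, pderiv_X_of_ne hb, mul_zero]
  · simp

private noncomputable def ofW {p : ℕ} (w : (Fin p → Fin ℓ) → MvPolynomial (Fin ℓ) K)
    (hw : AltF ℓ p w) : MvPolynomial (Fin ℓ) K [⋀^Fin p]→ₗ[K] MvPolynomial (Fin ℓ) K :=
  { ((aext w hw).toMultilinearMap.restrictScalars K).compLinearMap (fun _ => grad) with
    map_eq_zero_of_eq' := fun f _ _ hab hne =>
      (aext w hw).map_eq_zero_of_eq (fun s => grad (f s)) (congrArg grad hab) hne }

private lemma ofW_apply {p : ℕ} (w : (Fin p → Fin ℓ) → MvPolynomial (Fin ℓ) K)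
    (hw : AltF ℓ p w) (f : Fin p → MvPolynomial (Fin ℓ) K) :
    ofW w hw f = aext w hw (fun s => grad (f s)) := rfl

private lemma ofW_X {p : ℕ} (w : (Fin p → Fin ℓ) → MvPolynomial (Fin ℓ) K)
    (hw : AltF ℓ p w) (J : Fin p → Fin ℓ) : ofW w hw (fun s => X (J s)) = w J := by
  rw [ofW_apply]
  simp only [grad_X]
  exact aext_basis w hw J

private lemma ofW_isDer {p : ℕ} (w : (Fin p → Fin ℓ) → MvPolynomial (Fin ℓ) K)
    (hw : AltF ℓ p w) : IsDer (ofW w hw) := by
  intro f j g h
  have h1 : ∀ g : MvPolynomial (Fin ℓ) K, (fun s => grad (Function.update f j g s)) =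
      Function.update (fun s => grad (f s)) j (grad g) := by
    intro g
    ext1 s
    by_cases hs : s = j
    · subst hs
      simp
    · simp [Function.update_of_ne hs]
  rw [ofW_apply, ofW_apply, ofW_apply, h1, h1, h1, grad_mul, AlternatingMap.map_update_add,
    AlternatingMap.map_update_smul, AlternatingMap.map_update_smul]
  rfl

private lemma dvd_aext {l m p : ℕ} (w : (Fin (p+1) → Fin l) → MvPolynomial (Fin m) K)
    (hw : AltF l (p+1) w) (a : Fin l → K) (f : MvPolynomial (Fin m) K)
    (h : ∀ J : Fin p → Fin l, f ∣ kv a w J)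
    (D : Fin (p+1) → Fin l → MvPolynomial (Fin m) K) (hD : D 0 = fun i => C (a i)) :
    f ∣ aext w hw D := by
  rw [aext_apply]
  rw [← (Fin.consEquiv (fun _ : Fin (p+1) => Fin l)).sum_comp, Fintype.sum_prod_type_right]
  apply Finset.dvd_sum
  intro J _
  have h1 : (∑ x : Fin l, w ((Fin.consEquiv (fun _ : Fin (p+1) => Fin l)) (x, J)) *
      ∏ s, D s ((Fin.consEquiv (fun _ : Fin (p+1) => Fin l)) (x, J) s)) =
      kv a w J * ∏ s : Fin p, D s.succ (J s) := by
    rw [kv, Finset.sum_mul]
    apply Finset.sum_congr rfl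
    intro x _
    rw [Fin.prod_univ_succ]
    have h2 : (Fin.consEquiv (fun _ : Fin (p+1) => Fin l)) (x, J) = Fin.cons x J := rfl
    rw [h2]
    simp only [Fin.cons_zero, Fin.cons_succ, hD, smul_eq_C_mul]
    ring
  rw [h1]
  exact (h J).mul_right _

/-- the hyperplane of a form -/
private def kerS (a : Fin ℓ → K) : Submodule K (Fin ℓ → K) where
  carrier := {v | ∑ i, a i * v i = 0}
  add_mem' := by
    intro v w hv hw
    simp only [Set.mem_ofPred_eq, Pi.add_apply, mul_add, Finset.sum_add_distrib] at *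
    rw [hv, hw, add_zero]
  zero_mem' := by simp
  smul_mem' := by
    intro r v hv
    simp only [Set.mem_ofPred_eq, Pi.smul_apply, smul_eq_mul] at *
    have : ∑ i, a i * (r * v i) = r * ∑ i, a i * v i := by
      rw [Finset.mul_sum]
      apply Finset.sum_congr rfl
      intro i _
      ring
    rw [this, hv, mul_zero]

private lemma mem_kerS (a v : Fin ℓ → K) : v ∈ kerS a ↔ ∑ i, a i * v i = 0 := Iff.rfl

private lemma sum_apply' {p : ℕ} (s : Finset (Fin ℓ))
    (c : Fin ℓ → MvPolynomial (Fin ℓ) K [⋀^Fin p]→ₗ[K] MvPolynomial (Fin ℓ) K)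
    (D : Fin p → MvPolynomial (Fin ℓ) K) : (∑ i ∈ s, c i) D = ∑ i ∈ s, c i D := by
  classical
  induction s using Finset.induction_on with
  | empty => simp
  | insert x s hx ih =>
    rw [Finset.sum_insert hx, Finset.sum_insert hx, AlternatingMap.add_apply, ih]

/-- the value of `θ` at a linear form and variables -/
private lemma theta_lin {p : ℕ}
    (θ : MvPolynomial (Fin ℓ) K [⋀^Fin (p+1)]→ₗ[K] MvPolynomial (Fin ℓ) K)
    (a : Fin ℓ → K) (J : Fin p → Fin ℓ) :
    θ (Fin.cons (lin a) (fun s => X (J s))) = kv a (fun J => θ (fun s => X (J s))) J := by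
  have h1 : ∀ g : MvPolynomial (Fin ℓ) K,
      θ (Fin.cons g (fun s => X (J s))) = θ.curryLeft g (fun s => X (J s)) := fun _ => rfl
  rw [h1, lin, map_sum]
  have h2 : (∑ i, θ.curryLeft (C (a i) * X i : MvPolynomial (Fin ℓ) K)) (fun s => X (J s)) =
      ∑ i, θ.curryLeft (C (a i) * X i : MvPolynomial (Fin ℓ) K) (fun s => X (J s)) :=
    sum_apply' _ _ _
  rw [h2, kv]
  apply Finset.sum_congr rfl
  intro i _
  rw [← smul_eq_C_mul, map_smul, AlternatingMap.smul_apply, ← h1]
  congr 2
  ext1 s
  refine Fin.cases ?_ ?_ s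
  · rw [Fin.cons_zero, Fin.cons_zero]
  · intro s
    rw [Fin.cons_succ, Fin.cons_succ]

/-- coefficients of an alternating map -/
private noncomputable def toW {p : ℕ} :
    (MvPolynomial (Fin ℓ) K [⋀^Fin p]→ₗ[K] MvPolynomial (Fin ℓ) K) →ₗ[K]
      ((Fin p → Fin ℓ) → MvPolynomial (Fin ℓ) K) where
  toFun θ J := θ (fun s => X (J s))
  map_add' _ _ := rfl
  map_smul' _ _ := rfl

private lemma altF_toW {p : ℕ}
    (θ : MvPolynomial (Fin ℓ) K [⋀^Fin p]→ₗ[K] MvPolynomial (Fin ℓ) K) : AltF ℓ p (toW θ) := by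
  constructor
  · intro J hJ
    show θ _ = 0
    apply θ.map_eq_zero_of_not_injective
    intro hinj
    apply hJ
    intro s t hst
    apply hinj
    simp only [hst]
  · intro J a b hab
    exact θ.map_swap (fun s => X (J s)) hab

section link

variable (A : Finset (Submodule K (Fin ℓ → K))) (m : Submodule K (Fin ℓ → K) → ℕ)
  (B : Finset (Fin ℓ → K)) (hB0 : ∀ a ∈ B, a ≠ 0) (hB : ∀ a ∈ B, kerS a ∈ A)
  (hA : ∀ H ∈ A, ∃ a ∈ B, kerS a = H)
  (hform : ∀ H ∈ A, ∀ a b : Fin ℓ → K, (∀ v, v ∈ H ↔ ∑ i, a i * v i = 0) →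
    (∀ v, v ∈ H ↔ ∑ i, b i * v i = 0) → ∃ c : K, c ≠ 0 ∧ a = c • b)

include hB hA hform

private lemma mem_iff {p : ℕ} (θ : MvPolynomial (Fin ℓ) K [⋀^Fin p]→ₗ[K] MvPolynomial (Fin ℓ) K)
    (hθ : IsDer θ) :
    θ ∈ LogDer A m p ↔ toW θ ∈ DD B (fun a => m (kerS a)) p := by
  cases p with
  | zero =>
    refine iff_of_true ⟨hθ, ?_⟩ trivial
    intro H _ a _ f hp
    exact absurd hp (lt_irrefl 0)
  | succ p =>
    have heq : ofW (toW θ) (altF_toW θ) = θ := by
      rw [← sub_eq_zero]
      apply ext_of_X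
      · intro f j g h
        rw [AlternatingMap.sub_apply, AlternatingMap.sub_apply, AlternatingMap.sub_apply,
          ofW_isDer _ _ f j g h, hθ f j g h]
        ring
      · intro J
        rw [AlternatingMap.sub_apply, ofW_X]
        exact sub_self _
    rw [mem_DD_succ]
    constructor
    · rintro ⟨_, h2⟩
      refine ⟨altF_toW θ, ?_⟩
      intro a ha J
      have h3 := h2 (kerS a) (hB a ha) a (fun v => Iff.rfl)
        (Fin.cons (lin a) (fun s => X (J s))) (Nat.succ_pos p) rfl
      rw [theta_lin] at h3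
      exact h3
    · rintro ⟨_, h2⟩
      refine ⟨hθ, ?_⟩
      intro H hH a ha f hp hf
      obtain ⟨b, hb, hbH⟩ := hA H hH
      obtain ⟨c, hc, hcb⟩ := hform H hH a b ha (fun v => by rw [← hbH]; rfl)
      have h3 : ∀ J : Fin p → Fin ℓ, form a ^ m H ∣ kv a (toW θ) J := by
        intro J
        have h4 := h2 b hb J
        rw [hbH] at h4
        have h5 : kv a (toW θ) J = c • kv b (toW θ) J := by
          simp only [kv, hcb, Pi.smul_apply, smul_eq_mul, Finset.smul_sum, mul_smul]
        have h6 : form a = C c * lin b := by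
          rw [hcb, form, lin, Finset.mul_sum]
          apply Finset.sum_congr rfl
          intro i _
          rw [Pi.smul_apply, smul_eq_mul, map_mul, mul_assoc]
        have hu : IsUnit (C c ^ m H : MvPolynomial (Fin ℓ) K) :=
          ((isUnit_iff_ne_zero.2 hc).map C).pow _
        rw [h5, h6, mul_pow, smul_eq_C_mul, hu.mul_left_dvd]
        exact h4.mul_left _
      have h7 := dvd_aext (toW θ) (altF_toW θ) a (form a ^ m H) h3 (fun s => grad (f s)) (by
        have : f 0 = form a := hf
        rw [this, form_eq, grad_lin])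
      rwa [← ofW_apply, heq] at h7

private lemma finrank_piece (p k : ℕ) :
    Module.Finite K (LogDerDeg A m p k) ∧ Module.finrank K (LogDerDeg A m p k) =
      Module.finrank K (WW (DD B (fun a => m (kerS a)) p) k) := by
  have hmap : ∀ θ ∈ LogDerDeg A m p k, toW θ ∈ WW (DD B (fun a => m (kerS a)) p) k := by
    rintro θ ⟨h1, h2⟩
    exact ⟨(mem_iff A m B hB hA hform θ h1.1).1 h1, h2⟩
  let φ : LogDerDeg A m p k →ₗ[K] WW (DD B (fun a => m (kerS a)) p) k := toW.restrict hmap
  have hφ : Function.Bijective φ := by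
    constructor
    · rw [injective_iff_map_eq_zero]
      rintro ⟨θ, h1, h2⟩ h3
      apply Subtype.ext
      apply ext_of_X θ h1.1
      intro J
      exact congrFun (congrArg Subtype.val h3) J
    · rintro ⟨w, h1, h2⟩
      have halt := altF_of_mem h1
      have h3 : toW (ofW w halt) = w := by
        ext1 J
        exact ofW_X w halt J
      refine ⟨⟨ofW w halt, ?_, ?_⟩, ?_⟩
      · rw [mem_iff A m B hB hA hform _ (ofW_isDer w halt), h3]
        exact h1
      · intro J
        rw [ofW_X]
        exact h2 J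
      · exact Subtype.ext h3
  exact ⟨Module.Finite.equiv (LinearEquiv.ofBijective φ hφ).symm,
    (LinearEquiv.ofBijective φ hφ).finrank_eq⟩

end link

/-- every hyperplane has a defining form -/
private lemma exists_form (H : Submodule K (Fin ℓ → K)) (hH : Module.finrank K H + 1 = ℓ) :
    ∃ a : Fin ℓ → K, a ≠ 0 ∧ kerS a = H := by
  have hne : H < ⊤ := by
    rw [lt_top_iff_ne_top]
    rintro rfl
    rw [finrank_top, Module.finrank_fin_fun] at hH
    omega
  obtain ⟨f, hf0, hf⟩ := Submodule.exists_le_ker_of_lt_top H hne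
  have hf' : ∀ v, f v = ∑ i, f (Pi.single i 1) * v i := by
    intro v
    conv_lhs => rw [← Finset.univ_sum_single v]
    rw [map_sum]
    apply Finset.sum_congr rfl
    intro i _
    have : (Pi.single i (v i) : Fin ℓ → K) = v i • Pi.single i 1 := by
      rw [← Pi.single_smul, smul_eq_mul, mul_one]
    rw [this, map_smul, smul_eq_mul, mul_comm]
  refine ⟨fun i => f (Pi.single i 1), ?_, ?_⟩
  · intro h0
    apply hf0
    apply LinearMap.ext
    intro v
    rw [hf' v, LinearMap.zero_apply]
    apply Finset.sum_eq_zero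
    intro i _
    rw [show f (Pi.single i 1) = 0 from congrFun h0 i, zero_mul]
  · have h1 : kerS (fun i => f (Pi.single i 1)) = LinearMap.ker f := by
      ext v
      rw [mem_kerS, LinearMap.mem_ker, hf' v]
    rw [h1]
    symm
    apply Submodule.eq_of_le_of_finrank_eq hf
    have h2 := Module.Dual.finrank_ker_add_one_of_ne_zero hf0
    rw [Module.finrank_fin_fun] at h2
    omega

/-- the defining form of a hyperplane is unique up to a nonzero factor -/
private lemma form_unique (H : Submodule K (Fin ℓ → K)) (hH : Module.finrank K H + 1 = ℓ)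
    (a b : Fin ℓ → K) (ha : ∀ v, v ∈ H ↔ ∑ i, a i * v i = 0)
    (hb : ∀ v, v ∈ H ↔ ∑ i, b i * v i = 0) : ∃ c : K, c ≠ 0 ∧ a = c • b := by
  have hne : H ≠ ⊤ := by
    rintro rfl
    rw [finrank_top, Module.finrank_fin_fun] at hH
    omega
  obtain ⟨v, hv⟩ : ∃ v, v ∉ H := by
    by_contra hcon
    push Not at hcon
    exact hne (eq_top_iff.2 fun v _ => hcon v)
  have hav : ∑ i, a i * v i ≠ 0 := fun h => hv ((ha v).2 h)
  have hbv : ∑ i, b i * v i ≠ 0 := fun h => hv ((hb v).2 h)
  refine ⟨(∑ i, a i * v i) / (∑ i, b i * v i), div_ne_zero hav hbv, ?_⟩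
  ext1 j
  have hlin : ∀ (c : Fin ℓ → K) (r : K),
      ∑ i, c i * ((Pi.single j 1 : Fin ℓ → K) - r • v) i = c j - r * ∑ i, c i * v i := by
    intro c r
    simp only [Pi.sub_apply, Pi.smul_apply, smul_eq_mul, mul_sub, Finset.sum_sub_distrib]
    congr 1
    · simp [Pi.single_apply]
    · rw [Finset.mul_sum]
      apply Finset.sum_congr rfl
      intro i _
      ring
  have h1 : (Pi.single j 1 : Fin ℓ → K) - (b j / ∑ i, b i * v i) • v ∈ H := by
    rw [hb, hlin, div_mul_cancel₀ _ hbv, sub_self]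
  rw [ha, hlin, sub_eq_zero] at h1
  rw [Pi.smul_apply, smul_eq_mul, h1]
  ring

private lemma coeff_psi (A : Finset (Submodule K (Fin ℓ → K))) (m : Submodule K (Fin ℓ → K) → ℕ)
    (k : ℕ) : PowerSeries.coeff k ((Psi A m).eval (-1)) =
      ∑ p ∈ Finset.range (ℓ + 1), if p ≤ k then
        (-1) ^ p * (Module.finrank K (LogDerDeg A m p (k - p)) : ℤ) else 0 := by
  rw [Psi, Polynomial.eval_finsetSum, map_sum]
  apply Finset.sum_congr rfl
  intro p _
  have h1 : Polynomial.eval (-1) (Polynomial.C (hilb A m p) *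
      (Polynomial.X * (Polynomial.C PowerSeries.X - 1) - 1) ^ p) =
      (PowerSeries.C ((-1 : ℤ) ^ p)) * (hilb A m p * (PowerSeries.X : PowerSeries ℤ) ^ p) := by
    simp only [Polynomial.eval_mul, Polynomial.eval_pow, Polynomial.eval_sub, Polynomial.eval_C,
      Polynomial.eval_X, Polynomial.eval_one]
    have h2 : (-1 : PowerSeries ℤ) * (PowerSeries.X - 1) - 1 = (-1) * PowerSeries.X := by ring
    rw [h2, mul_pow, map_pow, map_neg, map_one]
    ring
  rw [h1, PowerSeries.coeff_C_mul, PowerSeries.coeff_mul_X_pow']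
  split_ifs
  · rw [hilb, PowerSeries.coeff_mk]
  · rw [mul_zero]

/-- For every field `K`, every `ℓ`, every arrangement `A` of hyperplanes of `K ^ ℓ` and all
multiplicities `m` the graded parts of `D^p(A, m)` are finite-dimensional, and `Ψ(A, m; x, -1)` is a
polynomial in `x` of degree `∑_{H ∈ A} m H` with leading coefficient `1`. -/
theorem result (K : Type u) [Field K] (ℓ : ℕ) (A : Finset (Submodule K (Fin ℓ → K)))
    (hA : ∀ H ∈ A, Module.finrank K H + 1 = ℓ) (m : Submodule K (Fin ℓ → K) → ℕ) :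
    (∀ p k, Module.Finite K (LogDerDeg A m p k)) ∧
    ∃ P : Polynomial ℤ, (P : PowerSeries ℤ) = (Psi A m).eval (-1) ∧
      P.natDegree = ∑ H ∈ A, m H ∧ P.leadingCoeff = 1 := by
  classical
  have hex : ∀ H ∈ A, ∃ a : Fin ℓ → K, a ≠ 0 ∧ kerS a = H := fun H hH => exists_form H (hA H hH)
  choose! aH haH using hex
  set B : Finset (Fin ℓ → K) := A.image aH with hBdef
  have hB : ∀ a ∈ B, kerS a ∈ A := by
    intro a ha
    obtain ⟨H, hH, rfl⟩ := Finset.mem_image.1 ha
    rw [(haH H hH).2]
    exact hH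
  have hB0 : ∀ a ∈ B, a ≠ 0 := by
    intro a ha
    obtain ⟨H, hH, rfl⟩ := Finset.mem_image.1 ha
    exact (haH H hH).1
  have hAB : ∀ H ∈ A, ∃ a ∈ B, kerS a = H := fun H hH =>
    ⟨aH H, Finset.mem_image_of_mem _ hH, (haH H hH).2⟩
  have hform : ∀ H ∈ A, ∀ a b : Fin ℓ → K, (∀ v, v ∈ H ↔ ∑ i, a i * v i = 0) →
      (∀ v, v ∈ H ↔ ∑ i, b i * v i = 0) → ∃ c : K, c ≠ 0 ∧ a = c • b :=
    fun H hH a b ha hb => form_unique H (hA H hH) a b ha hb
  have hinj : ∀ H ∈ A, ∀ H' ∈ A, aH H = aH H' → H = H' := by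
    intro H hH H' hH' h
    rw [← (haH H hH).2, ← (haH H' hH').2, h]
  have hsum : ∑ a ∈ B, m (kerS a) = ∑ H ∈ A, m H := by
    rw [hBdef, Finset.sum_image hinj]
    apply Finset.sum_congr rfl
    intro H hH
    rw [(haH H hH).2]
  have hli : ∀ a ∈ B, ∀ b ∈ B, a ≠ b → ∀ c : K, b ≠ c • a := by
    intro a ha b hb hab c hc
    obtain ⟨H, hH, rfl⟩ := Finset.mem_image.1 ha
    obtain ⟨H', hH', rfl⟩ := Finset.mem_image.1 hb
    apply hab
    have hc0 : c ≠ 0 := by
      rintro rfl
      exact (haH H' hH').1 (by rw [hc, zero_smul])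
    have h1 : kerS (aH H') = kerS (aH H) := by
      ext v
      rw [mem_kerS, mem_kerS, hc]
      have h2 : ∑ i, (c • aH H) i * v i = c * ∑ i, aH H i * v i := by
        rw [Finset.mul_sum]
        apply Finset.sum_congr rfl
        intro i _
        rw [Pi.smul_apply, smul_eq_mul, mul_assoc]
      rw [h2, mul_eq_zero, or_iff_right hc0]
    rw [(haH H hH).2, (haH H' hH').2] at h1
    rw [h1]
  have hpiece := finrank_piece A m B hB hAB hform
  refine ⟨fun p k => (hpiece p k).1, ?_⟩
  set n := ∑ H ∈ A, m H with hn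
  set F : PowerSeries ℤ := (Psi A m).eval (-1) with hF
  have hcc : ∀ k, PowerSeries.coeff k F = cc (DD B (fun a => m (kerS a))) k := by
    intro k
    rw [hF, coeff_psi, cc, ← Finset.sum_filter]
    simp only [fun p k => (hpiece p k).2]
    apply Finset.sum_subset_zero_on_sdiff
    · intro p hp
      simp only [Finset.mem_filter, Finset.mem_range] at hp ⊢
      omega
    · intro p hp
      simp only [Finset.mem_sdiff, Finset.mem_filter, Finset.mem_range, not_and, not_le] at hp
      have hlp : (ℓ : ℤ) < p := by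
        by_contra hcon
        have := hp.2 (by omega)
        omega
      rw [WW, (sys_DD B _ hB0).top p hlp, bot_inf_eq, finrank_bot]
      simp
    · intro p _
      rfl
  have hval : ∀ k, n ≤ k → PowerSeries.coeff k F = if k = n then 1 else 0 := by
    intro k hk
    rw [hcc, cc_DD ℓ B _ hB0 hli k (by rw [hsum]; exact hk), hsum]
  refine ⟨PowerSeries.trunc (n + 1) F, ?_, ?_, ?_⟩
  · ext k
    rw [Polynomial.coeff_coe, PowerSeries.coeff_trunc]
    split_ifs with h
    · rfl
    · rw [hval k (by omega), if_neg (by omega)]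
  all_goals
    have hc : (PowerSeries.trunc (n + 1) F).coeff n = 1 := by
      rw [PowerSeries.coeff_trunc, if_pos (Nat.lt_succ_self n), hval n le_rfl, if_pos rfl]
    have hd : (PowerSeries.trunc (n + 1) F).natDegree = n := by
      apply Polynomial.natDegree_eq_of_le_of_coeff_ne_zero
      · rw [Polynomial.natDegree_le_iff_coeff_eq_zero]
        intro k hk
        rw [PowerSeries.coeff_trunc, if_neg (by omega)]
      · rw [hc]
        exact one_ne_zero
  · exact hd
  · rw [Polynomial.leadingCoeff, hd, hc]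

end Pool.Agent.Results.MP_81a4d5_co.Multiarrangement
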